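import Pool.Agent.H95.AD.TargetsU
import Pool.Agent.H49.CN.CHS

/-!
# The expansion of the weight of a fundamental discriminant into congruences
-/

set_option autoImplicit false

namespace Pool.Agent.H77.AD

open Pool.Agent.H31.CN Pool.Agent.H95.AD

theorem sum_div_mul (a b : ℕ) (ha : a ≠ 0) (hb : b ≠ 0) (hab : Nat.Coprime a b) (F : ℕ → ℝ) :
    ∑ d ∈ (a * b).divisors, F d = ∑ x ∈ a.divisors ×ˢ b.divisors, F (x.1 * x.2) := by
  refine Finset.sum_nbij' (fun d => (Nat.gcd d a, Nat.gcd d b)) (fun x => x.1 * x.2) ?_ ?_ ?_ ?_ ?_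
  · intro d _
    simp only [Finset.mem_product, Nat.mem_divisors]
    exact ⟨⟨Nat.gcd_dvd_right _ _, ha⟩, ⟨Nat.gcd_dvd_right _ _, hb⟩⟩
  · intro x hx
    simp only [Finset.mem_product, Nat.mem_divisors] at hx
    simp only [Nat.mem_divisors]
    exact ⟨Nat.mul_dvd_mul hx.1.1 hx.2.1, mul_ne_zero ha hb⟩
  · intro d hd
    simp only [Nat.mem_divisors] at hd
    simp only
    rw [← Nat.Coprime.gcd_mul d hab]
    exact Nat.gcd_eq_left hd.1
  · intro x hx
    simp only [Finset.mem_product, Nat.mem_divisors] at hx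
    have h2 : Nat.Coprime x.2 a := (Nat.Coprime.coprime_dvd_right hx.2.1 hab).symm
    have h1 : Nat.Coprime x.1 b := Nat.Coprime.coprime_dvd_left hx.1.1 hab
    refine Prod.ext ?_ ?_
    · simp only
      rw [Nat.Coprime.gcd_mul_right_cancel x.1 h2]
      exact Nat.gcd_eq_left hx.1.1
    · simp only
      rw [Nat.Coprime.gcd_mul_left_cancel x.2 h1]
      exact Nat.gcd_eq_left hx.2.1
  · intro d hd
    simp only [Nat.mem_divisors] at hd
    simp only
    rw [← Nat.Coprime.gcd_mul d hab, Nat.gcd_eq_left hd.1]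

theorem prod_sum_div (f : ℕ → ℕ → ℝ) (m : ℕ) (hm : m ≠ 0) :
    ∏ p ∈ m.primeFactors, ∑ j ∈ Finset.range (m.factorization p + 1), f p j =
      ∑ a ∈ m.divisors, ∏ p ∈ m.primeFactors, f p (a.factorization p) := by
  induction m using Nat.recOnPosPrimePosCoprime with
  | zero => exact absurd rfl hm
  | one => simp
  | prime_pow p n hp hn =>
    rw [Nat.primeFactors_prime_pow hn.ne' hp, Finset.prod_singleton, Nat.sum_divisors_prime_pow hp]
    simp only [Finset.prod_singleton, Nat.Prime.factorization_pow hp, Finsupp.single_eq_same]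
  | coprime a b ha hb hab iha ihb =>
    have ha0 : a ≠ 0 := by omega
    have hb0 : b ≠ 0 := by omega
    rw [Nat.Coprime.primeFactors_mul hab, Finset.prod_union hab.disjoint_primeFactors,
      sum_div_mul a b ha0 hb0 hab, Finset.sum_product]
    have hav : ∀ p ∈ a.primeFactors, ¬ p ∣ b := by
      intro p hp hpb
      have hp1 := Nat.prime_of_mem_primeFactors hp
      exact (Nat.Prime.one_lt hp1).ne' (Nat.Coprime.eq_one_of_dvd
        (Nat.Coprime.coprime_dvd_left (Nat.dvd_of_mem_primeFactors hp) hab) hpb)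
    have hbv : ∀ p ∈ b.primeFactors, ¬ p ∣ a := by
      intro p hp hpa
      have hp1 := Nat.prime_of_mem_primeFactors hp
      exact (Nat.Prime.one_lt hp1).ne' (Nat.Coprime.eq_one_of_dvd
        (Nat.Coprime.coprime_dvd_left (Nat.dvd_of_mem_primeFactors hp) hab.symm) hpa)
    have h1 : ∏ p ∈ a.primeFactors, ∑ j ∈ Finset.range ((a * b).factorization p + 1), f p j =
        ∏ p ∈ a.primeFactors, ∑ j ∈ Finset.range (a.factorization p + 1), f p j := by
      refine Finset.prod_congr rfl fun p hp => ?_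
      rw [Nat.factorization_mul ha0 hb0, Finsupp.add_apply,
        Nat.factorization_eq_zero_of_not_dvd (hav p hp), add_zero]
    have h2 : ∏ p ∈ b.primeFactors, ∑ j ∈ Finset.range ((a * b).factorization p + 1), f p j =
        ∏ p ∈ b.primeFactors, ∑ j ∈ Finset.range (b.factorization p + 1), f p j := by
      refine Finset.prod_congr rfl fun p hp => ?_
      rw [Nat.factorization_mul ha0 hb0, Finsupp.add_apply,
        Nat.factorization_eq_zero_of_not_dvd (hbv p hp), zero_add]
    rw [h1, h2, iha ha0, ihb hb0, Finset.sum_mul_sum]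
    refine Finset.sum_congr rfl fun x hx => Finset.sum_congr rfl fun y hy => ?_
    have hx1 := Nat.mem_divisors.1 hx
    have hy1 := Nat.mem_divisors.1 hy
    have hx0 : x ≠ 0 := fun h => ha0 (by rw [h] at hx1; exact Nat.eq_zero_of_zero_dvd hx1.1)
    have hy0 : y ≠ 0 := fun h => hb0 (by rw [h] at hy1; exact Nat.eq_zero_of_zero_dvd hy1.1)
    rw [Finset.prod_union hab.disjoint_primeFactors]
    refine congrArg₂ (· * ·) ?_ ?_
    · refine Finset.prod_congr rfl fun p hp => ?_
      rw [Nat.factorization_mul hx0 hy0, Finsupp.add_apply,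
        Nat.factorization_eq_zero_of_not_dvd (n := y) (fun h => hav p hp (h.trans hy1.1)), add_zero]
    · refine Finset.prod_congr rfl fun p hp => ?_
      rw [Nat.factorization_mul hx0 hy0, Finsupp.add_apply,
        Nat.factorization_eq_zero_of_not_dvd (n := x) (fun h => hbv p hp (h.trans hx1.1)), zero_add]

theorem fac_tt (m₁ m₂ : ℕ) (h1 : Squarefree m₁) (h2 : Squarefree m₂) (p : ℕ) (hp : p.Prime) :
    (m₁ * m₂).factorization p = tt p m₁ m₂ := by
  have key : ∀ m : ℕ, Squarefree m → m.factorization p = if p ∣ m then 1 else 0 := by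
    intro m hm
    by_cases h : p ∣ m
    · rw [if_pos h]
      exact Nat.factorization_eq_one_of_squarefree hm hp h
    · rw [if_neg h]
      exact Nat.factorization_eq_zero_of_not_dvd h
  rw [Nat.factorization_mul h1.ne_zero h2.ne_zero, Finsupp.add_apply, key m₁ h1, key m₂ h2]
  rfl

theorem uw_bd (p D e t j : ℕ) (hp : p.Prime) : |uw p D e t j| ≤ 4 := by
  have hc := abs_le.1 (Pool.Agent.H49.CN.chi_abs p hp (D : ℤ))
  unfold uw
  rw [abs_le]
  split_ifs <;> constructor <;> nlinarith [hc.1, hc.2]

theorem uw_ne (p D e t j : ℕ) (hp : p.Prime) (he : e ≠ 0) (ht : t ≤ 2) (h : uw p D e t j ≠ 0) :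
    t ≤ j + 2 * e.factorization p := by
  have hf : p ∣ e → 1 ≤ e.factorization p := fun h => hp.factorization_pos_of_dvd he h
  have hf2 : p ^ 2 ∣ e → 1 ≤ e.factorization p := fun h =>
    hp.factorization_pos_of_dvd he ((dvd_pow_self p (by norm_num)).trans h)
  unfold uw at h
  by_cases hpe : p ∣ e
  · have := hf hpe
    omega
  · have hpe2 : ¬ p ^ 2 ∣ e := fun h => hpe ((dvd_pow_self p (by norm_num)).trans h)
    by_cases h2 : t = 2
    · rw [if_pos h2] at h
      by_cases hj0 : j = 0
      · rw [if_pos hj0, if_neg hpe, if_neg (fun h => hpe2 h.1)] at h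
        simp at h
      · rw [if_neg hj0] at h
        by_cases hj1 : j = 1
        · rw [if_pos hj1, if_neg hpe, if_neg (fun h => hpe2 h.1)] at h
          simp at h
        · omega
    · rw [if_neg h2] at h
      by_cases hj0 : j = 0
      · rw [if_pos hj0, if_neg hpe] at h
        exact absurd rfl h
      · omega

theorem tt_pos (m₁ m₂ : ℕ) (p : ℕ) (hp : p ∈ (m₁ * m₂).primeFactors) :
    tt p m₁ m₂ = 1 ∨ tt p m₁ m₂ = 2 := by
  have hp1 := Nat.prime_of_mem_primeFactors hp
  have h := (Nat.Prime.dvd_mul hp1).1 (Nat.dvd_of_mem_primeFactors hp)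
  unfold tt
  rcases h with h | h
  · rw [if_pos h]
    split_ifs <;> simp
  · rw [if_pos h]
    split_ifs <;> simp

theorem dvd_iff_pf (m a A : ℕ) (hm : m ≠ 0) (ha : a ∣ m) (hA : A ≠ 0) :
    a ∣ A ↔ ∀ p ∈ m.primeFactors, p ^ (a.factorization p) ∣ A := by
  have ha0 : a ≠ 0 := fun h => hm (by rw [h] at ha; exact Nat.eq_zero_of_zero_dvd ha)
  constructor
  · intro h p _
    exact (Nat.ordProj_dvd a p).trans h
  · intro h
    refine (Nat.factorization_le_iff_dvd ha0 hA).1 ?_
    intro p
    by_cases hp : p ∈ m.primeFactors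
    · exact ((Nat.prime_of_mem_primeFactors hp).pow_dvd_iff_le_factorization hA).1 (h p hp)
    · have : a.factorization p = 0 := by
        by_contra h0
        have h1 : p ∈ a.primeFactors := by
          rw [← Nat.support_factorization]
          exact Finsupp.mem_support_iff.2 h0
        exact hp (Nat.primeFactors_mono ha hm h1)
      rw [this]
      exact Nat.zero_le _

theorem pf_NWE (hNWP : T_NWP) : T_NWE := by
  intro m₁ m₂ D e h1 h2 hD3 hD4 hDs he
  have hm : m₁ * m₂ ≠ 0 := mul_ne_zero h1.ne_zero h2.ne_zero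
  refine ⟨?_, ?_⟩
  · intro A B C hA hABC
    have hA0 : A ≠ 0 := by omega
    rw [hNWP m₁ m₂ D A e B C h1 h2 hD3 hD4 hDs hA he hABC]
    have hr : ∏ p ∈ (m₁ * m₂).primeFactors,
        ∑ j ∈ Finset.range 3, (if p ^ j ∣ A then uw p D e (tt p m₁ m₂) j else 0) =
        ∏ p ∈ (m₁ * m₂).primeFactors, ∑ j ∈ Finset.range ((m₁ * m₂).factorization p + 1),
          (fun p j => if p ^ j ∣ A then uw p D e (tt p m₁ m₂) j else 0) p j := by
      refine Finset.prod_congr rfl fun p hp => ?_
      rw [fac_tt m₁ m₂ h1 h2 p (Nat.prime_of_mem_primeFactors hp)]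
      rcases tt_pos m₁ m₂ p hp with h | h
      · rw [h, Finset.sum_range_succ]
        have : uw p D e 1 2 = 0 := by
          unfold uw
          simp
        rw [this, ite_self, add_zero]
        refine Finset.sum_congr rfl fun j _ => ?_
        simp only
        rw [h]
      · rw [h]
        refine Finset.sum_congr rfl fun j _ => ?_
        simp only
        rw [h]
    rw [hr, prod_sum_div _ _ hm]
    refine Finset.sum_congr rfl fun a ha => ?_
    have ha1 := (Nat.mem_divisors.1 ha).1
    rw [Finset.prod_ite_zero]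
    by_cases h : a ∣ A
    · rw [if_pos h, if_pos ((dvd_iff_pf _ a A hm ha1 hA0).1 h)]
      rfl
    · rw [if_neg h, if_neg (fun h' => h ((dvd_iff_pf _ a A hm ha1 hA0).2 h'))]
  · intro a ha
    have ha1 := (Nat.mem_divisors.1 ha).1
    have ha0 : a ≠ 0 := fun h => hm (by rw [h] at ha1; exact Nat.eq_zero_of_zero_dvd ha1)
    refine ⟨?_, ?_⟩
    · unfold cf
      rw [Finset.abs_prod]
      calc ∏ p ∈ (m₁ * m₂).primeFactors, |uw p D e (tt p m₁ m₂) (a.factorization p)|
          ≤ ∏ p ∈ (m₁ * m₂).primeFactors, (4 : ℝ) :=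
            Finset.prod_le_prod (fun p _ => abs_nonneg _)
              fun p hp => uw_bd _ _ _ _ _ (Nat.prime_of_mem_primeFactors hp)
        _ = 4 ^ (m₁ * m₂).primeFactors.card := by rw [Finset.prod_const]
    · intro hc
      have hne := Finset.prod_ne_zero_iff.1 hc
      have he0 : e ≠ 0 := by omega
      refine (Nat.factorization_le_iff_dvd hm (mul_ne_zero ha0 (pow_ne_zero 2 he0))).1 ?_
      intro p
      by_cases hp : p ∈ (m₁ * m₂).primeFactors
      · have hp1 := Nat.prime_of_mem_primeFactors hp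
        rw [fac_tt m₁ m₂ h1 h2 p hp1, Nat.factorization_mul ha0 (pow_ne_zero 2 he0),
          Finsupp.add_apply, Nat.factorization_pow, Finsupp.smul_apply, smul_eq_mul]
        refine uw_ne p D e _ _ hp1 he0 ?_ (hne p hp)
        rcases tt_pos m₁ m₂ p hp with h | h <;> omega
      · have : (m₁ * m₂).factorization p = 0 := by
          by_contra h0
          apply hp
          rw [← Nat.support_factorization]
          exact Finsupp.mem_support_iff.2 h0
        rw [this]
        exact Nat.zero_le _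

end Pool.Agent.H77.AD
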